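import Pool.Agent.MP_7b45f6_mp.H32.Spec

/-!
# Row MAIN: the two free energies exist and agree
-/

namespace Pool.Agent.MP_7b45f6_mp.H32

open Classical Filter Topology

namespace MAIN

theorem lim_of (Z : ℕ → ℝ) (N : ℕ → ℕ) (hN : ∀ᶠ n in atTop, 0 < N n) (F : ℝ)
    (hu : ∀ δ : ℝ, 0 < δ → ∀ᶠ n in atTop, Z n ≤ Real.exp ((F + δ) * N n))
    (hl : ∀ δ : ℝ, 0 < δ → ∀ᶠ n in atTop, Real.exp ((F - δ) * N n) ≤ Z n) :
    Tendsto (fun n => Real.log (Z n) / N n) atTop (𝓝 F) := by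
  rw [Metric.tendsto_nhds]
  intro ε hε
  filter_upwards [hN, hu (ε / 2) (by linarith), hl (ε / 2) (by linarith)] with n h0 h1 h2
  have hz : 0 < Z n := (Real.exp_pos _).trans_le h2
  have hn : (0 : ℝ) < N n := by exact_mod_cast h0
  have h3 := (div_le_iff₀ hn).2 ((Real.log_le_iff_le_exp hz).2 h1)
  have h4 := (le_div_iff₀ hn).2 ((Real.le_log_iff_exp_le hz).2 h2)
  rw [Real.dist_eq, abs_lt]
  constructor <;> linarith

theorem dom_ex (a b : ℝ) : Dom ⟨a, b, kap ⟨a, b, 0⟩ + 6⟩ := by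
  refine ⟨1, fun n => ?_⟩
  refine ((bd_crude ⟨a, b, 0⟩ 0 n).const_mul
    (Real.exp_pos (-((kap ⟨a, b, 0⟩ + 6) * n))).le).mono subset_rfl (fun w hw => ?_) ?_
  · unfold ew
    rw [← Real.exp_add, phi_l a b 0 (kap ⟨a, b, 0⟩ + 6), hw.1.card, hw.2.1]
    exact le_of_eq (congrArg Real.exp (by ring))
  · have h6 : (6 : ℝ) ^ n ≤ Real.exp (6 * n) := by
      rw [mul_comm, Real.exp_nat_mul]
      exact pow_le_pow_left₀ (by norm_num) (by linarith [Real.add_one_le_exp (6 : ℝ)]) n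
    refine (mul_le_mul_of_nonneg_left (mul_le_mul_of_nonneg_right h6 (Real.exp_pos _).le)
      (Real.exp_pos _).le).trans (le_of_eq ?_)
    rw [← Real.exp_add, ← Real.exp_add, Real.exp_eq_one_iff]
    ring

end MAIN

theorem main_of : TBStmt → CloseStmt → MergeStmt → DblStmt → LadStmt → WalkStmt → PolyStmt →
    MainStmt := by
  intro hTB hC hM hD hL hW hP a b
  have up : ∀ l, Dom ⟨a, b, l⟩ → ∀ δ : ℝ, 0 < δ →
      ∀ᶠ n : ℕ in atTop, Zw n a b ≤ Real.exp ((l - b + δ) * n) := by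
    intro l hl
    have q0 := hC _ (hTB _ hl)
    obtain ⟨C1, c1, q1⟩ := hD _ 1 {1} Finset.univ 0 (by decide) (by simp) le_rfl
      (hM _ _ 0 le_rfl q0 q0)
    obtain ⟨C2, -, q2⟩ := hD _ 0 ∅ {1} C1 (by decide) (by simp) c1 (hM _ _ C1 c1 q0 q1)
    exact (hW a b l).1 C2 q2
  have hne : {l : ℝ | Dom ⟨a, b, l⟩}.Nonempty := ⟨_, MAIN.dom_ex a b⟩
  have hbd : BddBelow {l : ℝ | Dom ⟨a, b, l⟩} := by
    refine ⟨b - 1 - 2 * (|a| + 7 * |b|), fun l hl => ?_⟩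
    obtain ⟨n, h1, h2⟩ := ((up l hl 1 one_pos).and (eventually_ge_atTop 1)).exists
    have h3 := Real.exp_le_exp.1 (((hW a b l).2.2 n).trans h1)
    have hn : (1 : ℝ) ≤ n := by exact_mod_cast h2
    have hK : 0 ≤ |a| + 7 * |b| := by positivity
    by_contra h4
    push Not at h4
    nlinarith
  set F := sInf {l : ℝ | Dom ⟨a, b, l⟩} with hF
  have hi : ∀ δ : ℝ, 0 < δ → ∃ l, Dom ⟨a, b, l⟩ ∧ l - b + δ / 2 ≤ F - b + δ := fun δ hδ => by
    obtain ⟨l, h1, h2⟩ := exists_lt_of_csInf_lt hne (show F < F + δ / 2 by linarith)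
    exact ⟨l, h1, by linarith⟩
  have lo : ∀ δ : ℝ, 0 < δ →
      ∀ᶠ m : ℕ in atTop, Lb (Tour 0 (2 * m)) (ew ⟨a, b, F - δ / 2⟩) 1 := fun δ hδ =>
    hL a b (F - δ / 4) _ (by linarith) fun h => by
      have := csInf_le hbd h
      linarith
  have ex : ∀ δ : ℝ, F - b - δ = F - δ / 2 - b - δ / 2 := fun δ => by ring
  refine ⟨F - b, MAIN.lim_of (fun n => Zw n a b) (fun n => n) (eventually_gt_atTop 0) _
    (fun δ hδ => ?_) fun δ hδ => ?_, MAIN.lim_of (fun m => Zp (2 * m) a b) (fun m => 2 * m)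
    ((eventually_gt_atTop 0).mono fun m hm => by omega) _ (fun δ hδ => ?_) fun δ hδ => ?_⟩
  · obtain ⟨l, h1, h2⟩ := hi δ hδ
    exact (up l h1 _ (half_pos hδ)).mono fun n hn => hn.trans
      (Real.exp_le_exp.2 (mul_le_mul_of_nonneg_right h2 (Nat.cast_nonneg _)))
  · rw [ex]
    exact (hW a b _).2.1 (lo δ hδ) _ (half_pos hδ)
  · obtain ⟨l, h1, h2⟩ := hi δ hδ
    have h3 : Tendsto (fun m : ℕ => 2 * m) atTop atTop :=
      tendsto_atTop_mono (fun m => by show m ≤ 2 * m; omega) tendsto_id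
    exact (h3.eventually ((hP a b l).1 (hTB _ h1) _ (half_pos hδ))).mono fun n hn => hn.trans
      (Real.exp_le_exp.2 (mul_le_mul_of_nonneg_right h2 (Nat.cast_nonneg _)))
  · rw [ex]
    exact (hP a b _).2 (lo δ hδ) _ (half_pos hδ)

end Pool.Agent.MP_7b45f6_mp.H32
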